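import Mathlib

/-!
# Wreath products `R ≀ Q` of abelian groups, their conjugacy classes and finite quotients
-/

set_option autoImplicit false

namespace Pool.Agent.Q98.CD

open Function Finsupp

/-- The restricted wreath product `R ≀ Q` of abelian groups: a finitely supported function
`Q → R` and an element of `Q`. -/
@[ext] structure Wr (R Q : Type) [AddCommGroup R] [AddCommGroup Q] where
  /-- the element of the base group -/
  base : Q →₀ R
  /-- the position -/
  pos : Q

/-- the shift of a function -/
noncomputable def shift {R Q : Type} [AddCommGroup R] [AddCommGroup Q] (a : Q) (f : Q →₀ R) :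
    Q →₀ R := mapDomain (fun x => a + x) f

section shift

variable {R Q : Type} [AddCommGroup R] [AddCommGroup Q]

lemma shift_zero (f : Q →₀ R) : shift 0 f = f := by
  have : (fun x : Q => 0 + x) = id := by funext x; simp
  rw [shift, this, mapDomain_id]

lemma shift_add (a : Q) (f g : Q →₀ R) : shift a (f + g) = shift a f + shift a g :=
  mapDomain_add

lemma shift_shift (a b : Q) (f : Q →₀ R) : shift a (shift b f) = shift (a + b) f := by
  rw [shift, shift, ← mapDomain_comp, shift]
  congr 1
  funext x
  simp [add_assoc]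

lemma shift_neg (a : Q) (f : Q →₀ R) : shift a (-f) = -shift a f := by
  have h := shift_add a (-f) f
  rw [neg_add_cancel] at h
  have h0 : shift a (0 : Q →₀ R) = 0 := mapDomain_zero
  rw [h0] at h
  exact eq_neg_of_add_eq_zero_left h.symm

lemma shift_apply (a : Q) (f : Q →₀ R) (x : Q) : shift a f x = f (-a + x) := by
  have h := mapDomain_apply (f := fun x => a + x) (add_right_injective a) f (-a + x)
  rw [add_neg_cancel_left] at h
  exact h

lemma shift_single (a x : Q) (r : R) : shift a (single x r) = single (a + x) r :=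
  mapDomain_single

end shift

namespace Wr

variable {R Q : Type} [AddCommGroup R] [AddCommGroup Q]

noncomputable instance : Mul (Wr R Q) := ⟨fun x y => ⟨x.base + shift x.pos y.base, x.pos + y.pos⟩⟩
noncomputable instance : One (Wr R Q) := ⟨⟨0, 0⟩⟩
noncomputable instance : Inv (Wr R Q) := ⟨fun x => ⟨-shift (-x.pos) x.base, -x.pos⟩⟩

lemma mul_base (x y : Wr R Q) : (x * y).base = x.base + shift x.pos y.base := rfl
lemma mul_pos (x y : Wr R Q) : (x * y).pos = x.pos + y.pos := rfl
lemma one_base : (1 : Wr R Q).base = 0 := rfl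
lemma one_pos : (1 : Wr R Q).pos = 0 := rfl
lemma inv_base (x : Wr R Q) : (x⁻¹).base = -shift (-x.pos) x.base := rfl
lemma inv_pos (x : Wr R Q) : (x⁻¹).pos = -x.pos := rfl

/-- the multiplication `(f, a) (g, b) = (f + shift a g, a + b)` -/
noncomputable instance : Group (Wr R Q) := Group.ofLeftAxioms
  (fun x y z => by
    ext1
    · rw [mul_base, mul_base, mul_base, mul_base, shift_add, shift_shift, mul_pos, add_assoc]
    · rw [mul_pos, mul_pos, mul_pos, mul_pos, add_assoc])
  (fun x => by
    ext1
    · rw [mul_base, one_base, one_pos, shift_zero, zero_add]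
    · rw [mul_pos, one_pos, zero_add])
  (fun x => by
    ext1
    · rw [mul_base, inv_base, inv_pos, neg_add_cancel, one_base]
    · rw [mul_pos, inv_pos, neg_add_cancel, one_pos])

lemma conj_of {f f' u : Q →₀ R} {a v : Q} (h : u + shift v f = f' + shift a u) :
    IsConj (⟨f, a⟩ : Wr R Q) ⟨f', a⟩ := by
  rw [isConj_iff]
  refine ⟨⟨u, v⟩, ?_⟩
  rw [mul_inv_eq_iff_eq_mul]
  ext1
  · rw [mul_base, mul_base]
    exact h
  · rw [mul_pos, mul_pos]
    exact add_comm _ _

lemma shift_of_conj {f f' : Q →₀ R} (h : IsConj (⟨f, 0⟩ : Wr R Q) ⟨f', 0⟩) :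
    ∃ w, f' = shift w f := by
  obtain ⟨c, hc⟩ := isConj_iff.1 h
  rw [mul_inv_eq_iff_eq_mul] at hc
  have h1 := congrArg Wr.base hc
  rw [mul_base, mul_base, shift_zero, add_comm] at h1
  exact ⟨c.pos, (add_right_cancel h1).symm⟩

lemma pos_of_conj {x y : Wr R Q} (h : IsConj x y) : x.pos = y.pos := by
  obtain ⟨c, hc⟩ := isConj_iff.1 h
  rw [mul_inv_eq_iff_eq_mul] at hc
  have h1 := congrArg Wr.pos hc
  rw [mul_pos, mul_pos, add_comm] at h1
  exact add_right_cancel h1

/-- functoriality -/
noncomputable def mp {R' Q' : Type} [AddCommGroup R'] [AddCommGroup Q'] (ρ : R →+ R')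
    (π : Q →+ Q') : Wr R Q →* Wr R' Q' where
  toFun x := ⟨(x.base.mapDomain π).mapRange ρ ρ.map_zero, π x.pos⟩
  map_one' := by
    ext1
    · rw [one_base, one_base, mapDomain_zero, mapRange_zero]
    · rw [one_pos, one_pos, map_zero]
  map_mul' x y := by
    ext1
    · show ((x * y).base.mapDomain π).mapRange ρ ρ.map_zero
        = (x.base.mapDomain π).mapRange ρ ρ.map_zero
          + shift (π x.pos) ((y.base.mapDomain π).mapRange ρ ρ.map_zero)
      rw [mul_base, mapDomain_add, mapRange_add (map_add ρ)]
      congr 1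
      rw [shift, shift, ← mapDomain_comp]
      have : (π ∘ fun z => x.pos + z) = (fun z => π x.pos + z) ∘ π := by
        funext z; simp
      rw [this, mapDomain_comp, mapDomain_mapRange]
      exact fun a b => map_add ρ a b
    · show π (x * y).pos = π x.pos + π y.pos
      rw [mul_pos, map_add]

instance [Finite R] [Finite Q] : Finite (Wr R Q) := by
  haveI : Finite (Q →₀ R) := Finite.of_injective (fun f : Q →₀ R => (f : Q → R))
    DFunLike.coe_injective
  exact Finite.of_injective (fun x : Wr R Q => (x.base, x.pos)) (fun x y h => by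
    rw [Prod.mk.injEq] at h
    exact Wr.ext h.1 h.2)

lemma card_le [Finite R] [Finite Q] :
    Nat.card (Wr R Q) ≤ Nat.card R ^ Nat.card Q * Nat.card Q := by
  have h := Nat.card_le_card_of_injective
    (fun x : Wr R Q => ((x.base : Q → R), x.pos)) (fun x y h => by
      rw [Prod.mk.injEq] at h
      exact Wr.ext (DFunLike.coe_injective h.1) h.2)
  rw [Nat.card_prod, Nat.card_fun] at h
  exact h

end Wr

section kernel

variable {R Q : Type} [AddCommGroup R] [AddCommGroup Q]

/-- the map `u ↦ u - X^a u` -/
noncomputable def del (R : Type) [AddCommGroup R] (a : Q) : (Q →₀ R) →+ (Q →₀ R) where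
  toFun u := u - shift a u
  map_zero' := by
    have h0 : shift a (0 : Q →₀ R) = 0 := mapDomain_zero
    rw [h0, sub_zero]
  map_add' u v := by rw [shift_add]; abel

lemma single_mem (a : Q) (r : R) (j : ℤ) : ∀ x : Q,
    single (x + j • a) r - single x r ∈ (del R a).range := by
  have step : ∀ x : Q, single (x + a) r - single x r ∈ (del R a).range := by
    intro x
    refine ⟨single x (-r), ?_⟩
    show single x (-r) - shift a (single x (-r)) = _
    rw [shift_single, Finsupp.single_neg, Finsupp.single_neg, add_comm a x]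
    abel
  induction j using Int.induction_on with
  | zero => intro x; simp
  | succ j ih =>
    intro x
    have h := AddSubgroup.add_mem _ (step (x + (j : ℤ) • a)) (ih x)
    have e : x + ((j : ℤ) + 1) • a = x + (j : ℤ) • a + a := by
      rw [add_smul, one_smul, add_assoc]
    rw [e]
    convert h using 1
    abel
  | pred j ih =>
    intro x
    have e : x + (-(j : ℤ)) • a = x + (-(j : ℤ) - 1) • a + a := by
      rw [sub_smul, one_smul]; abel
    have h := AddSubgroup.sub_mem _ (ih x) (step (x + (-(j : ℤ) - 1) • a))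
    rw [← e] at h
    convert h using 1
    abel

/-- the kernel of `R[Q] → R[Q/a]` -/
theorem mem_range_of_mapDomain {a : Q} {h : Q →₀ R}
    (hh : mapDomain (QuotientAddGroup.mk : Q → Q ⧸ AddSubgroup.zmultiples a) h = 0) :
    ∃ u, h = u - shift a u := by
  have key : ∀ g : Q →₀ R, g - mapDomain
      ((Quotient.out : Q ⧸ AddSubgroup.zmultiples a → Q) ∘ QuotientAddGroup.mk) g
        ∈ (del R a).range := by
    intro g
    induction g using Finsupp.induction_linear with
    | zero => rw [mapDomain_zero, sub_zero]; exact AddSubgroup.zero_mem _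
    | add f g hf hg =>
      rw [mapDomain_add]
      have := AddSubgroup.add_mem _ hf hg
      convert this using 1
      abel
    | single x r =>
      rw [mapDomain_single]
      set y : Q := (Quotient.out (QuotientAddGroup.mk x : Q ⧸ AddSubgroup.zmultiples a)) with hy
      have h1 : (QuotientAddGroup.mk y : Q ⧸ AddSubgroup.zmultiples a) = QuotientAddGroup.mk x :=
        Quotient.out_eq _
      rw [QuotientAddGroup.eq] at h1
      obtain ⟨j, hj⟩ := AddSubgroup.mem_zmultiples_iff.1 h1
      have h2 : x = y + j • a := by rw [hj]; abel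
      have h3 := single_mem a r j y
      rw [← h2] at h3
      exact h3
  obtain ⟨u, hu⟩ := key h
  rw [mapDomain_comp, hh, mapDomain_zero, sub_zero] at hu
  exact ⟨u, hu.symm⟩

/-- **conjugacy criterion** -/
theorem conj_of_quot {f f' : Q →₀ R} {a : Q} {v : Q ⧸ AddSubgroup.zmultiples a}
    (h : mapDomain (QuotientAddGroup.mk : Q → Q ⧸ AddSubgroup.zmultiples a) f'
      = shift v (mapDomain (QuotientAddGroup.mk : Q → Q ⧸ AddSubgroup.zmultiples a) f)) :
    IsConj (⟨f, a⟩ : Wr R Q) ⟨f', a⟩ := by
  obtain ⟨v, rfl⟩ := QuotientAddGroup.mk_surjective v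
  have h1 : mapDomain (QuotientAddGroup.mk : Q → Q ⧸ AddSubgroup.zmultiples a)
      (f' - shift v f) = 0 := by
    have h2 : mapDomain (QuotientAddGroup.mk : Q → Q ⧸ AddSubgroup.zmultiples a) (shift v f)
        = shift (QuotientAddGroup.mk v : Q ⧸ AddSubgroup.zmultiples a)
          (mapDomain (QuotientAddGroup.mk : Q → Q ⧸ AddSubgroup.zmultiples a) f) := by
      rw [shift, shift, ← mapDomain_comp, ← mapDomain_comp]
      rfl
    have h3 : mapDomain (QuotientAddGroup.mk : Q → Q ⧸ AddSubgroup.zmultiples a)
        (f' - shift v f) + mapDomain (QuotientAddGroup.mk : Q → Q ⧸ AddSubgroup.zmultiples a)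
        (shift v f) = mapDomain (QuotientAddGroup.mk : Q → Q ⧸ AddSubgroup.zmultiples a) f' := by
      rw [← mapDomain_add, sub_add_cancel]
    rw [h2, h] at h3
    exact add_eq_right.1 h3
  obtain ⟨u, hu⟩ := mem_range_of_mapDomain h1
  apply Wr.conj_of (u := u) (v := v)
  have : f' = u - shift a u + shift v f := by rw [← hu]; abel
  rw [this]
  abel

end kernel

section transfer

variable {R R' A Q : Type} [AddCommGroup R] [AddCommGroup R'] [AddCommGroup A] [AddCommGroup Q]

lemma shift_injective (w : Q) : Injective (shift w : (Q →₀ R) → (Q →₀ R)) := by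
  intro f g h
  have := congrArg (shift (-w)) h
  rwa [shift_shift, shift_shift, neg_add_cancel, shift_zero, shift_zero] at this

/-- **transfer**: equality up to shifts in a small quotient -/
theorem transfer [DecidableEq A] (π : A →+ Q) (ρ : R →+ R') {f f' : A →₀ R} (T : Finset A)
    (hf : f.support ⊆ T) (hf' : f'.support ⊆ T)
    (hT : ∀ x₁ ∈ T, ∀ x₂ ∈ T, ∀ x₃ ∈ T, ∀ x₄ ∈ T, π (x₁ - x₂ + x₃ - x₄) = 0 →
      x₁ - x₂ + x₃ - x₄ = 0)
    (h0 : ∀ x, ρ (f x) = 0 → f x = 0) (h0' : ∀ x, ρ (f' x) = 0 → f' x = 0)
    (h1 : ∀ x y, ρ (f' y) = ρ (f x) → f' y = f x) {w : Q}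
    (h : (f'.mapDomain π).mapRange ρ ρ.map_zero
      = shift w ((f.mapDomain π).mapRange ρ ρ.map_zero)) :
    ∃ v, f' = shift v f := by
  classical
  have hinj : Set.InjOn π (T : Set A) := by
    intro x hx y hy hxy
    have := hT x hx y hy y hy y hy (by rw [add_sub_cancel_right, map_sub, hxy, sub_self])
    rw [add_sub_cancel_right] at this
    exact sub_eq_zero.1 this
  set F := (f.mapDomain π).mapRange ρ ρ.map_zero with hF
  set F' := (f'.mapDomain π).mapRange ρ ρ.map_zero with hF'
  have e : ∀ s ∈ T, F (π s) = ρ (f s) := by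
    intro s hs
    rw [hF, mapRange_apply, mapDomain_apply' (T : Set A) f (by exact_mod_cast hf) hinj hs]
  have e' : ∀ s ∈ T, F' (π s) = ρ (f' s) := by
    intro s hs
    rw [hF', mapRange_apply, mapDomain_apply' (T : Set A) f' (by exact_mod_cast hf') hinj hs]
  have n : ∀ q, F q ≠ 0 → ∃ s ∈ f.support, π s = q := by
    intro q hq
    have h2 : mapDomain π f q ≠ 0 := by
      intro h3
      apply hq
      rw [hF, mapRange_apply, h3, map_zero]
    have h3 := mapDomain_support (Finsupp.mem_support_iff.2 h2)
    rw [Finset.mem_image] at h3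
    exact h3
  have n' : ∀ q, F' q ≠ 0 → ∃ s ∈ f'.support, π s = q := by
    intro q hq
    have h2 : mapDomain π f' q ≠ 0 := by
      intro h3
      apply hq
      rw [hF', mapRange_apply, h3, map_zero]
    have h3 := mapDomain_support (Finsupp.mem_support_iff.2 h2)
    rw [Finset.mem_image] at h3
    exact h3
  have hw : ∀ q, F' q = F (-w + q) := fun q => by rw [h, shift_apply]
  rcases f'.support.eq_empty_or_nonempty with he | ⟨s0', hs0'⟩
  · have hf'0 : f' = 0 := Finsupp.support_eq_empty.1 he
    have hF'0 : F' = 0 := by rw [hF', hf'0, mapDomain_zero, mapRange_zero]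
    refine ⟨0, ?_⟩
    rw [shift_zero, hf'0]
    by_contra hne
    obtain ⟨s, hs⟩ := Finsupp.support_nonempty_iff.2 (Ne.symm hne)
    have h2 := e s (hf hs)
    have h3 : F (π s) = 0 := by
      have := hw (w + π s)
      rw [neg_add_cancel_left, hF'0] at this
      exact this.symm
    rw [h3] at h2
    exact Finsupp.mem_support_iff.1 hs (h0 s h2.symm)
  · have h2 : F' (π s0') ≠ 0 := by
      rw [e' s0' (hf' hs0')]
      exact fun h3 => Finsupp.mem_support_iff.1 hs0' (h0' _ h3)
    rw [hw] at h2
    obtain ⟨s0, hs0, hs0w⟩ := n _ h2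
    have hwv : w = π (s0' - s0) := by rw [map_sub, hs0w]; abel
    refine ⟨s0' - s0, ?_⟩
    ext y
    rw [shift_apply]
    by_cases hy : y ∈ f'.support
    · have h3 : F' (π y) ≠ 0 := by
        rw [e' y (hf' hy)]
        exact fun h3 => Finsupp.mem_support_iff.1 hy (h0' _ h3)
      rw [hw] at h3
      obtain ⟨s, hs, hsw⟩ := n _ h3
      have h4 : s - y + s0' - s0 = 0 := by
        apply hT s (hf hs) y (hf' hy) s0' (hf' hs0') s0 (hf hs0)
        rw [map_sub, map_add, map_sub, hsw, hwv, map_sub]
        abel
      have h5 : s = -(s0' - s0) + y := by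
        have : s = s - y + s0' - s0 + (-(s0' - s0) + y) := by abel
        rw [this, h4, zero_add]
      rw [← h5]
      apply h1
      rw [← e' y (hf' hy), ← e s (hf hs), hw, hsw]
    · have hy0 : f' y = 0 := Finsupp.notMem_support_iff.1 hy
      rw [hy0]
      by_contra hne
      have hs : -(s0' - s0) + y ∈ f.support := Finsupp.mem_support_iff.2 (Ne.symm hne)
      set s := -(s0' - s0) + y with hsdef
      have h3 : F (π s) ≠ 0 := by
        rw [e s (hf hs)]
        exact fun h3 => Finsupp.mem_support_iff.1 hs (h0 _ h3)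
      have h4 : F' (π y) ≠ 0 := by
        rw [hw, hwv]
        have : -π (s0' - s0) + π y = π s := by rw [hsdef, map_add, map_neg]
        rw [this]
        exact h3
      obtain ⟨s', hs', hs'y⟩ := n' _ h4
      have h5 : s' - s + s0 - s0' = 0 := by
        apply hT s' (hf' hs') s (hf hs) s0 (hf hs0) s0' (hf' hs0')
        rw [map_sub, map_add, map_sub, hs'y, hsdef, map_add, map_neg, map_sub]
        abel
      have h6 : s' = y := by
        have : s' = s' - s + s0 - s0' + y := by rw [hsdef]; abel
        rw [this, h5, zero_add]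
      exact hy (h6 ▸ hs')

end transfer

end Pool.Agent.Q98.CD
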