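import Pool.Agent.Q98.CD.Proj

/-!
# Upper bound for the conjugacy depth of `R ≀ ℤ^k`
-/

set_option autoImplicit false

namespace Pool.Agent.Q98.CD

open Function Finsupp

/-- a size function on an abelian group -/
structure Size (R : Type) [AddCommGroup R] where
  /-- the size -/
  nu : R → ℕ
  zero : nu 0 = 0
  eq_zero : ∀ r, nu r = 0 → r = 0
  neg : ∀ r, nu (-r) = nu r
  add : ∀ r s, nu (r + s) ≤ nu r + nu s

section size

variable {R : Type} [AddCommGroup R] (ν : Size R)

/-- the total size of a function -/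
noncomputable def tot {A : Type} (f : A →₀ R) : ℕ := f.sum (fun _ r => ν.nu r)

lemma tot_eq_of_subset {A : Type} [DecidableEq A] (f : A →₀ R) {S : Finset A}
    (h : f.support ⊆ S) : tot ν f = ∑ x ∈ S, ν.nu (f x) :=
  Finsupp.sum_of_support_subset f h _ (fun _ _ => ν.zero)

lemma tot_add {A : Type} (f g : A →₀ R) : tot ν (f + g) ≤ tot ν f + tot ν g := by
  classical
  rw [tot_eq_of_subset ν (f + g) Finsupp.support_add,
    tot_eq_of_subset ν f (S := f.support ∪ g.support) Finset.subset_union_left,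
    tot_eq_of_subset ν g (S := f.support ∪ g.support) Finset.subset_union_right,
    ← Finset.sum_add_distrib]
  exact Finset.sum_le_sum fun x _ => ν.add _ _

lemma tot_single {A : Type} (x : A) (r : R) : tot ν (single x r) = ν.nu r :=
  Finsupp.sum_single_index ν.zero

lemma tot_mapDomain {A B : Type} (φ : A → B) (f : A →₀ R) :
    tot ν (mapDomain φ f) ≤ tot ν f := by
  classical
  induction f using Finsupp.induction with
  | zero => rw [mapDomain_zero, tot, Finsupp.sum_zero_index]; exact Nat.zero_le _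
  | single_add x r f hx hr ih =>
    have h1 : tot ν (single x r + f) = ν.nu r + tot ν f := by
      rw [tot, Finsupp.sum_add_index_of_disjoint]
      · exact congrArg₂ (· + ·) (tot_single ν x r) rfl
      · rw [Finsupp.support_single_ne_zero x hr]
        exact Finset.disjoint_singleton_left.2 hx
    rw [h1, mapDomain_add, mapDomain_single]
    refine (tot_add ν _ _).trans ?_
    rw [tot_single]
    exact Nat.add_le_add_left ih _

lemma card_support_le {A : Type} (f : A →₀ R) : f.support.card ≤ tot ν f := by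
  rw [tot, Finsupp.sum, Finset.card_eq_sum_ones]
  apply Finset.sum_le_sum
  intro x hx
  rw [Nat.one_le_iff_ne_zero]
  exact fun h => Finsupp.mem_support_iff.1 hx (ν.eq_zero _ h)

lemma nu_le_tot {A : Type} (f : A →₀ R) (x : A) : ν.nu (f x) ≤ tot ν f := by
  by_cases hx : x ∈ f.support
  · rw [tot, Finsupp.sum]
    exact Finset.single_le_sum (f := fun x => ν.nu (f x)) (fun _ _ => Nat.zero_le _) hx
  · rw [Finsupp.notMem_support_iff.1 hx, ν.zero]
    exact Nat.zero_le _

end size

variable {k : ℕ} {R : Type} [AddCommGroup R]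

/-- bounded elements of `R ≀ ℤ^k` -/
structure Bd (ν : Size R) (N : ℕ) (x : Wr R (Fin k → ℤ)) : Prop where
  pos : ∀ i, |x.pos i| ≤ N
  supp : ∀ y ∈ x.base.support, ∀ i, |y i| ≤ N
  tot : tot ν x.base ≤ N

lemma Bd.mul {ν : Size R} {N M : ℕ} {x y : Wr R (Fin k → ℤ)} (hx : Bd ν N x) (hy : Bd ν M y) :
    Bd ν (N + M) (x * y) := by
  classical
  refine ⟨fun i => ?_, fun z hz i => ?_, ?_⟩
  · rw [Wr.mul_pos, Pi.add_apply]
    push_cast
    exact (abs_add_le _ _).trans (add_le_add (hx.pos i) (hy.pos i))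
  · rw [Wr.mul_base] at hz
    push_cast
    have hM : (0 : ℤ) ≤ M := Int.natCast_nonneg M
    rcases Finset.mem_union.1 (Finsupp.support_add hz) with h | h
    · have := hx.supp z h i
      linarith
    · have h2 := mapDomain_support h
      rw [Finset.mem_image] at h2
      obtain ⟨w, hw, rfl⟩ := h2
      rw [Pi.add_apply]
      exact (abs_add_le _ _).trans (add_le_add (hx.pos i) (hy.supp w hw i))
  · rw [Wr.mul_base]
    exact (tot_add ν _ _).trans (Nat.add_le_add hx.tot ((tot_mapDomain ν _ _).trans hy.tot))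

lemma Bd.mono {ν : Size R} {N M : ℕ} {x : Wr R (Fin k → ℤ)} (hx : Bd ν N x) (h : N ≤ M) :
    Bd ν M x := by
  have h' : (N : ℤ) ≤ M := by exact_mod_cast h
  exact ⟨fun i => (hx.pos i).trans h', fun y hy i => (hx.supp y hy i).trans h', hx.tot.trans h⟩

lemma Bd.one {ν : Size R} (N : ℕ) : Bd ν N (1 : Wr R (Fin k → ℤ)) := by
  refine ⟨fun i => ?_, fun y hy => ?_, ?_⟩
  · rw [Wr.one_pos]; simp
  · rw [Wr.one_base] at hy; simp at hy
  · rw [Wr.one_base, Pool.Agent.Q98.CD.tot, Finsupp.sum_zero_index]; exact Nat.zero_le _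

lemma exists_bd (ν : Size R) (x : Wr R (Fin k → ℤ)) : ∃ N, Bd ν N x := by
  classical
  refine ⟨(∑ i, (x.pos i).natAbs) + (∑ y ∈ x.base.support, ∑ i, (y i).natAbs)
    + tot ν x.base, ?_, ?_, ?_⟩
  · intro i
    have h1 : (x.pos i).natAbs ≤ ∑ i, (x.pos i).natAbs :=
      Finset.single_le_sum (f := fun i => (x.pos i).natAbs) (fun _ _ => Nat.zero_le _)
        (Finset.mem_univ i)
    rw [Int.abs_eq_natAbs]
    exact_mod_cast (by omega)
  · intro y hy i
    have h1 : (y i).natAbs ≤ ∑ i, (y i).natAbs :=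
      Finset.single_le_sum (f := fun i => (y i).natAbs) (fun _ _ => Nat.zero_le _)
        (Finset.mem_univ i)
    have h2 : ∑ i, (y i).natAbs ≤ ∑ y ∈ x.base.support, ∑ i, (y i).natAbs :=
      Finset.single_le_sum (f := fun y : Fin k → ℤ => ∑ i, (y i).natAbs)
        (fun _ _ => Nat.zero_le _) hy
    rw [Int.abs_eq_natAbs]
    exact_mod_cast (by omega)
  · omega

/-- the elements of word length at most `n` with respect to `S` -/
def Ball {G : Type} [Group G] (S : Set G) (n : ℕ) : Set G :=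
  {g | ∃ l : List G, l.length ≤ n ∧ (∀ s ∈ l, s ∈ S ∨ s⁻¹ ∈ S) ∧ l.prod = g}

lemma exists_ball (ν : Size R) (S : Set (Wr R (Fin k → ℤ))) (hS : S.Finite) :
    ∃ c : ℕ, 1 ≤ c ∧ ∀ n, ∀ g ∈ Ball S n, Bd ν (c * n) g := by
  classical
  have h0 : ∃ c : ℕ, 1 ≤ c ∧ ∀ s, (s ∈ S ∨ s⁻¹ ∈ S) → Bd ν c s := by
    choose N hN using exists_bd ν (k := k)
    refine ⟨1 + (∑ s ∈ hS.toFinset, (N s + N s⁻¹)), by omega, ?_⟩
    have h1 : ∀ s ∈ S, N s + N s⁻¹ ≤ ∑ s ∈ hS.toFinset, (N s + N s⁻¹) := fun s hs =>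
      Finset.single_le_sum (f := fun s => N s + N s⁻¹) (fun _ _ => Nat.zero_le _)
        (hS.mem_toFinset.2 hs)
    rintro s (hs | hs)
    · exact (hN s).mono (by have := h1 s hs; omega)
    · have h2 := h1 _ hs
      rw [inv_inv] at h2
      exact (hN s).mono (by omega)
  obtain ⟨c, hc, h⟩ := h0
  refine ⟨c, hc, ?_⟩
  rintro n g ⟨l, hl, hs, rfl⟩
  have h1 : ∀ l : List (Wr R (Fin k → ℤ)), (∀ s ∈ l, s ∈ S ∨ s⁻¹ ∈ S) →
      Bd ν (c * l.length) l.prod := by
    intro l
    induction l with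
    | nil => intro _; exact Bd.one _
    | cons a l ih =>
      intro hs
      rw [List.prod_cons, List.length_cons, mul_add, mul_one, add_comm]
      exact (h a (hs a List.mem_cons_self)).mul (ih fun s h => hs s (List.mem_cons_of_mem a h))
  exact (h1 l hs).mono (Nat.mul_le_mul_left c hl)

/-- **two non-conjugate bounded elements are non-conjugate in a finite quotient of order at most
`|R'|^L L`, `L = 48 (k + 1) N^5`** -/
theorem separate (ν : Size R) {R' : Type} [AddCommGroup R'] [Finite R'] (ρ : R →+ R') {N : ℕ}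
    (hN : 1 ≤ N) (hρ : ∀ r, ν.nu r ≤ 2 * N → ρ r = 0 → r = 0)
    {x y : Wr R (Fin k → ℤ)} (hx : Bd ν N x) (hy : Bd ν N y) (hxy : ¬ IsConj x y) :
    ∃ (Q : Type) (_ : Group Q) (_ : Finite Q) (φ : Wr R (Fin k → ℤ) →* Q), Surjective φ ∧
      ¬ IsConj (φ x) (φ y) ∧
      Nat.card Q ≤ Nat.card R' ^ (48 * (k + 1) * N ^ 5) * (48 * (k + 1) * N ^ 5) := by
  classical
  -- it is enough to find a homomorphism to a finite wreath product
  suffices h : ∃ (Q : Type) (_ : AddCommGroup Q) (_ : Finite Q) (π : (Fin k → ℤ) →+ Q),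
      Nat.card Q ≤ 48 * (k + 1) * N ^ 5 ∧ ¬ IsConj (Wr.mp ρ π x) (Wr.mp ρ π y) by
    obtain ⟨Q, _, _, π, hQ, hn⟩ := h
    refine ⟨(Wr.mp ρ π).range, inferInstance, inferInstance, (Wr.mp ρ π).rangeRestrict,
      MonoidHom.rangeRestrict_surjective _, ?_, ?_⟩
    · intro hc
      apply hn
      exact (Wr.mp ρ π).range.subtype.map_isConj hc
    · have h1 : Nat.card (Wr.mp ρ π).range ≤ Nat.card (Wr R' Q) :=
        Nat.card_le_card_of_injective _ (Subgroup.subtype_injective _)
      refine h1.trans (Wr.card_le.trans ?_)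
      exact Nat.mul_le_mul (Nat.pow_le_pow_right Nat.card_pos hQ) hQ
  have hN5 : N ≤ N ^ 5 := Nat.le_self_pow (by norm_num) N
  by_cases hpos : x.pos = y.pos
  swap
  · -- different positions
    obtain ⟨i, hi⟩ : ∃ i, x.pos i ≠ y.pos i := by
      by_contra h
      push Not at h
      exact hpos (funext h)
    haveI : NeZero (2 * N + 1) := ⟨by omega⟩
    let π : (Fin k → ℤ) →+ ZMod (2 * N + 1) := AddMonoidHom.mk'
      (fun z => ((z i : ℤ) : ZMod (2 * N + 1))) (by
        intro z w
        show (((z + w) i : ℤ) : ZMod (2 * N + 1)) = _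
        rw [Pi.add_apply, Int.cast_add])
    refine ⟨ZMod (2 * N + 1), inferInstance, inferInstance, π, ?_, fun hc => ?_⟩
    · rw [Nat.card_zmod]
      nlinarith [Nat.zero_le (k * N ^ 5)]
    · have h1 := Wr.pos_of_conj hc
      have h2 : ((x.pos i : ℤ) : ZMod (2 * N + 1)) = ((y.pos i : ℤ) : ZMod (2 * N + 1)) := h1
      rw [ZMod.intCast_eq_intCast_iff_dvd_sub] at h2
      have h3 := abs_le.1 (hx.pos i)
      have h4 := abs_le.1 (hy.pos i)
      have h5 := Int.le_of_dvd (abs_pos.2 (sub_ne_zero.2 (Ne.symm hi))) ((dvd_abs _ _).2 h2)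
      have h6 : |y.pos i - x.pos i| ≤ 2 * N := by rw [abs_le]; constructor <;> linarith
      push_cast at h5
      linarith
  · -- equal positions
    obtain ⟨f, a⟩ := x
    obtain ⟨f', a'⟩ := y
    simp only at hpos
    subst hpos
    let T0 : Finset (Fin k → ℤ) := f.support ∪ f'.support
    have hT0 : ∀ z ∈ T0, ∀ i, |z i| ≤ N := by
      intro z hz
      rcases Finset.mem_union.1 hz with h | h
      · exact hx.supp z h
      · exact hy.supp z h
    have hT0c : T0.card ≤ 2 * N := by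
      have h1 : f.support.card ≤ N := (card_support_le ν f).trans hx.tot
      have h2 : f'.support.card ≤ N := (card_support_le ν f').trans hy.tot
      have h3 := Finset.card_union_le f.support f'.support
      have h4 : f.support.card + f'.support.card ≤ 2 * N := by linarith
      exact h3.trans h4
    obtain ⟨Q, _, _, π, hQ, hπa, hπ⟩ := exists_proj a hN hx.pos T0 hT0 hT0c
    refine ⟨Q, inferInstance, inferInstance, π, hQ, fun hc => hxy ?_⟩
    have h1 : IsConj (⟨(mapDomain π f).mapRange ρ ρ.map_zero, 0⟩ : Wr R' Q)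
        ⟨(mapDomain π f').mapRange ρ ρ.map_zero, 0⟩ := by
      have h2 : Wr.mp ρ π ⟨f, a⟩ = ⟨(mapDomain π f).mapRange ρ ρ.map_zero, 0⟩ := by
        rw [← hπa]; rfl
      have h3 : Wr.mp ρ π ⟨f', a⟩ = ⟨(mapDomain π f').mapRange ρ ρ.map_zero, 0⟩ := by
        rw [← hπa]; rfl
      rw [← h2, ← h3]
      exact hc
    obtain ⟨w, hw⟩ := Wr.shift_of_conj h1
    let mk : (Fin k → ℤ) →+ (Fin k → ℤ) ⧸ AddSubgroup.zmultiples a := QuotientAddGroup.mk' _
    have hker : AddSubgroup.zmultiples a ≤ π.ker := by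
      rw [AddSubgroup.zmultiples_le]
      exact hπa
    let πb : (Fin k → ℤ) ⧸ AddSubgroup.zmultiples a →+ Q := QuotientAddGroup.lift _ π hker
    have hπb : ∀ z, πb (mk z) = π z := fun z => rfl
    have hfac : ∀ g : (Fin k → ℤ) →₀ R, mapDomain π g = mapDomain πb (mapDomain mk g) := by
      intro g
      rw [← mapDomain_comp]
      rfl
    have hb : ∀ (g : (Fin k → ℤ) →₀ R) z, tot ν g ≤ N → ν.nu (mapDomain mk g z) ≤ N :=
      fun g z hg => (nu_le_tot ν _ z).trans ((tot_mapDomain ν _ _).trans hg)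
    rw [hfac, hfac] at hw
    obtain ⟨v, hv⟩ := transfer πb ρ (T0.image mk)
      (mapDomain_support.trans (Finset.image_subset_image Finset.subset_union_left))
      (mapDomain_support.trans (Finset.image_subset_image Finset.subset_union_right))
      (by
        intro x₁ h₁ x₂ h₂ x₃ h₃ x₄ h₄ h
        obtain ⟨z₁, hz₁, rfl⟩ := Finset.mem_image.1 h₁
        obtain ⟨z₂, hz₂, rfl⟩ := Finset.mem_image.1 h₂
        obtain ⟨z₃, hz₃, rfl⟩ := Finset.mem_image.1 h₃
        obtain ⟨z₄, hz₄, rfl⟩ := Finset.mem_image.1 h₄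
        rw [← map_sub, ← map_add, ← map_sub, hπb] at h
        obtain ⟨j, hj⟩ := hπ z₁ hz₁ z₂ hz₂ z₃ hz₃ z₄ hz₄ h
        rw [← map_sub, ← map_add, ← map_sub, hj]
        exact (QuotientAddGroup.eq_zero_iff _).2 ⟨j, rfl⟩)
      (fun z hz => hρ _ ((hb f z hx.tot).trans (by omega)) hz)
      (fun z hz => hρ _ ((hb f' z hy.tot).trans (by omega)) hz)
      (fun z z' hz => by
        have h2 : ρ (mapDomain mk f' z' - mapDomain mk f z) = 0 := by
          rw [map_sub, hz, sub_self]
        have h3 : ν.nu (mapDomain mk f' z' - mapDomain mk f z) ≤ 2 * N := by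
          rw [sub_eq_add_neg]
          refine (ν.add _ _).trans ?_
          rw [ν.neg]
          have := hb f z hx.tot
          have := hb f' z' hy.tot
          omega
        exact sub_eq_zero.1 (hρ _ h3 h2)) hw
    exact conj_of_quot hv

end Pool.Agent.Q98.CD
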