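import Pool.Agent.Q98.CD.Basic

/-!
# Small finite quotients of `ℤ^k` which are injective on few small vectors
-/

set_option autoImplicit false

namespace Pool.Agent.Q98.CD

open Polynomial

variable {k : ℕ}

/-- one linear form which detects all `c d`, `d ∈ D` -/
lemma exists_form (c : (Fin k → ℤ) →+ (Fin k → ℤ)) (D : Finset (Fin k → ℤ)) (B : ℕ)
    (hc : ∀ d ∈ D, ∀ i, |c d i| ≤ B) (l : ℕ) [Fact l.Prime] (h1 : B < l) (h2 : D.card * k < l) :
    ∃ φ : (Fin k → ℤ) →+ ZMod l, (∀ x, c x = 0 → φ x = 0) ∧ ∀ d ∈ D, φ d = 0 → c d = 0 := by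
  classical
  let P : (Fin k → ℤ) → (ZMod l)[X] := fun d =>
    ∑ i : Fin k, C ((c d i : ℤ) : ZMod l) * X ^ (i : ℕ)
  have hP : ∀ d ∈ D, c d ≠ 0 → P d ≠ 0 := by
    intro d hd hne h
    obtain ⟨i, hi⟩ : ∃ i, c d i ≠ 0 := by
      by_contra h3
      push Not at h3
      exact hne (funext h3)
    have h3 : (P d).coeff i = ((c d i : ℤ) : ZMod l) := by
      show (∑ j : Fin k, C ((c d j : ℤ) : ZMod l) * X ^ (j : ℕ)).coeff i = _
      rw [finset_sum_coeff]
      simp only [coeff_C_mul_X_pow]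
      rw [Finset.sum_eq_single i]
      · simp
      · intro j _ hj
        rw [if_neg]
        exact fun h => hj (Fin.ext h.symm)
      · intro h; exact absurd (Finset.mem_univ i) h
    rw [h, coeff_zero] at h3
    have h4 : ((l : ℕ) : ℤ) ∣ c d i := (ZMod.intCast_zmod_eq_zero_iff_dvd _ _).1 h3.symm
    have h5 := Int.le_of_dvd (abs_pos.2 hi) ((dvd_abs _ _).2 h4)
    have h6 := hc d hd i
    omega
  have hdeg : ∀ d, (P d).natDegree ≤ k := by
    intro d
    apply natDegree_sum_le_of_forall_le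
    intro i _
    exact (natDegree_C_mul_X_pow_le _ _).trans i.2.le
  have hcard : (D.biUnion fun d => (P d).roots.toFinset).card < l := by
    refine lt_of_le_of_lt Finset.card_biUnion_le ?_
    refine lt_of_le_of_lt (Finset.sum_le_card_nsmul _ _ k (fun d _ => ?_)) (by
      rwa [smul_eq_mul])
    exact (Multiset.toFinset_card_le _).trans ((card_roots' _).trans (hdeg d))
  obtain ⟨t, ht⟩ : ∃ t : ZMod l, t ∉ D.biUnion fun d => (P d).roots.toFinset := by
    by_contra h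
    push Not at h
    have h3 : (Finset.univ : Finset (ZMod l)) ⊆ D.biUnion fun d => (P d).roots.toFinset :=
      fun t _ => h t
    have h4 := Finset.card_le_card h3
    rw [Finset.card_univ, ZMod.card] at h4
    omega
  refine ⟨AddMonoidHom.mk' (fun x => ∑ i : Fin k, ((c x i : ℤ) : ZMod l) * t ^ (i : ℕ)) ?_, ?_, ?_⟩
  · intro x y
    rw [← Finset.sum_add_distrib]
    apply Finset.sum_congr rfl
    intro i _
    rw [map_add, Pi.add_apply, Int.cast_add, add_mul]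
  · intro x hx
    show ∑ i : Fin k, ((c x i : ℤ) : ZMod l) * t ^ (i : ℕ) = 0
    rw [hx]
    simp
  · intro d hd h
    by_contra hne
    apply ht
    rw [Finset.mem_biUnion]
    refine ⟨d, hd, ?_⟩
    rw [Multiset.mem_toFinset, mem_roots (hP d hd hne), IsRoot.def]
    have h3 : ∑ i : Fin k, ((c d i : ℤ) : ZMod l) * t ^ (i : ℕ) = 0 := h
    rw [← h3]
    show eval t (∑ i : Fin k, C ((c d i : ℤ) : ZMod l) * X ^ (i : ℕ)) = _
    rw [eval_finset_sum]
    simp

/-- the combinations `x₁ - x₂ + x₃ - x₄` -/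
noncomputable def comb (T : Finset (Fin k → ℤ)) : Finset (Fin k → ℤ) := by
  classical
  exact ((T ×ˢ T) ×ˢ (T ×ˢ T)).image (fun p => p.1.1 - p.1.2 + p.2.1 - p.2.2)

lemma mem_comb {T : Finset (Fin k → ℤ)} {x₁ x₂ x₃ x₄ : Fin k → ℤ} (h₁ : x₁ ∈ T) (h₂ : x₂ ∈ T)
    (h₃ : x₃ ∈ T) (h₄ : x₄ ∈ T) : x₁ - x₂ + x₃ - x₄ ∈ comb T := by
  classical
  rw [comb, Finset.mem_image]
  exact ⟨((x₁, x₂), (x₃, x₄)), by simp [h₁, h₂, h₃, h₄], rfl⟩

lemma card_comb (T : Finset (Fin k → ℤ)) : (comb T).card ≤ T.card ^ 4 := by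
  classical
  rw [comb]
  refine Finset.card_image_le.trans ?_
  rw [Finset.card_product, Finset.card_product]
  exact le_of_eq (by ring)

lemma abs_comb {T : Finset (Fin k → ℤ)} {N : ℕ} (hT : ∀ x ∈ T, ∀ i, |x i| ≤ N)
    {d : Fin k → ℤ} (hd : d ∈ comb T) (i : Fin k) : |d i| ≤ 4 * N := by
  classical
  rw [comb, Finset.mem_image] at hd
  obtain ⟨⟨⟨x₁, x₂⟩, ⟨x₃, x₄⟩⟩, hx, rfl⟩ := hd
  simp only [Finset.mem_product] at hx
  have h1 := abs_le.1 (hT _ hx.1.1 i)
  have h2 := abs_le.1 (hT _ hx.1.2 i)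
  have h3 := abs_le.1 (hT _ hx.2.1 i)
  have h4 := abs_le.1 (hT _ hx.2.2 i)
  simp only [Pi.sub_apply, Pi.add_apply]
  rw [abs_le]
  constructor <;> linarith

/-- **small quotients** -/
theorem exists_proj (a : Fin k → ℤ) {N : ℕ} (hN : 1 ≤ N) (ha : ∀ i, |a i| ≤ N)
    (T : Finset (Fin k → ℤ)) (hT : ∀ x ∈ T, ∀ i, |x i| ≤ N) (hcard : T.card ≤ 2 * N) :
    ∃ (Q : Type) (_ : AddCommGroup Q) (_ : Finite Q) (π : (Fin k → ℤ) →+ Q),
      Nat.card Q ≤ 48 * (k + 1) * N ^ 5 ∧ π a = 0 ∧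
      ∀ x₁ ∈ T, ∀ x₂ ∈ T, ∀ x₃ ∈ T, ∀ x₄ ∈ T, π (x₁ - x₂ + x₃ - x₄) = 0 →
        ∃ j : ℤ, x₁ - x₂ + x₃ - x₄ = j • a := by
  classical
  set L := 16 * N ^ 4 * k + 8 * N ^ 2 with hL
  have hN2 : 1 ≤ N ^ 2 := Nat.one_le_pow _ _ hN
  obtain ⟨l, hl, h1, h2⟩ := Nat.exists_prime_lt_and_le_two_mul L (by omega)
  haveI : Fact l.Prime := ⟨hl⟩
  have hD : (comb T).card * k < l := by
    have h3 := card_comb T
    have h4 : T.card ^ 4 ≤ (2 * N) ^ 4 := Nat.pow_le_pow_left hcard 4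
    have h5 : (comb T).card * k ≤ 16 * N ^ 4 * k := by
      apply Nat.mul_le_mul_right
      calc (comb T).card ≤ (2 * N) ^ 4 := h3.trans h4
        _ = 16 * N ^ 4 := by ring
    omega
  have hsize : 2 * L * N ≤ 48 * (k + 1) * N ^ 5 := by
    have e1 : N ^ 3 ≤ N ^ 5 := Nat.pow_le_pow_right hN (by norm_num)
    calc 2 * L * N = 32 * k * N ^ 5 + 16 * N ^ 3 := by rw [hL]; ring
      _ ≤ 32 * k * N ^ 5 + 16 * N ^ 5 := by omega
      _ ≤ 48 * (k + 1) * N ^ 5 := by nlinarith [Nat.zero_le (k * N ^ 5), Nat.zero_le (N ^ 5)]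
  by_cases ha0 : a = 0
  · obtain ⟨φ, _, hφ2⟩ := exists_form (AddMonoidHom.id _) (comb T) (4 * N)
      (fun d hd i => by
        have := abs_comb hT hd i
        push_cast
        exact this) l (by
          have e1 : N ≤ N ^ 2 := by nlinarith
          omega) hD
    refine ⟨ZMod l, inferInstance, inferInstance, φ, ?_, by rw [ha0, map_zero], ?_⟩
    · rw [Nat.card_zmod]
      calc l ≤ 2 * L := h2
        _ ≤ 2 * L * N := Nat.le_mul_of_pos_right _ hN
        _ ≤ _ := hsize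
    · intro x₁ h₁ x₂ h₂ x₃ h₃ x₄ h₄ h
      refine ⟨0, ?_⟩
      rw [zero_smul]
      exact hφ2 _ (mem_comb h₁ h₂ h₃ h₄) h
  · obtain ⟨i0, hi0⟩ : ∃ i, a i ≠ 0 := by
      by_contra h
      push Not at h
      exact ha0 (funext h)
    let c : (Fin k → ℤ) →+ (Fin k → ℤ) := AddMonoidHom.mk'
      (fun x i => a i0 * x i - x i0 * a i) (by
        intro x y
        funext i
        simp only [Pi.add_apply]
        ring)
    have hcdef : ∀ x i, c x i = a i0 * x i - x i0 * a i := fun _ _ => rfl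
    obtain ⟨φ, hφ1, hφ2⟩ := exists_form c (comb T) (8 * N ^ 2)
      (fun d hd i => by
        rw [hcdef]
        have e1 := abs_comb hT hd i
        have e2 := abs_comb hT hd i0
        have e3 := ha i0
        have e4 := ha i
        have hN' : (0 : ℤ) ≤ N := Int.natCast_nonneg N
        calc |a i0 * d i - d i0 * a i| ≤ |a i0 * d i| + |d i0 * a i| := abs_sub _ _
          _ = |a i0| * |d i| + |d i0| * |a i| := by rw [abs_mul, abs_mul]
          _ ≤ N * (4 * N) + 4 * N * N := by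
            apply add_le_add
            · exact mul_le_mul e3 e1 (abs_nonneg _) hN'
            · exact mul_le_mul e2 e4 (abs_nonneg _) (by positivity)
          _ = ((8 * N ^ 2 : ℕ) : ℤ) := by push_cast; ring) l (by omega) hD
    set g := (a i0).natAbs with hg
    have hg0 : g ≠ 0 := Int.natAbs_ne_zero.2 hi0
    haveI : NeZero g := ⟨hg0⟩
    let ψ : (Fin k → ℤ) →+ ZMod g := AddMonoidHom.mk' (fun x => ((x i0 : ℤ) : ZMod g)) (by
      intro x y
      show (((x + y) i0 : ℤ) : ZMod g) = _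
      rw [Pi.add_apply, Int.cast_add])
    have hψ : ∀ x, ψ x = 0 ↔ a i0 ∣ x i0 := by
      intro x
      show ((x i0 : ℤ) : ZMod g) = 0 ↔ _
      rw [ZMod.intCast_zmod_eq_zero_iff_dvd, hg, Int.natCast_natAbs, abs_dvd]
    refine ⟨ZMod l × ZMod g, inferInstance, inferInstance, φ.prod ψ, ?_, ?_, ?_⟩
    · rw [Nat.card_prod, Nat.card_zmod, Nat.card_zmod]
      have e1 : g ≤ N := by
        have := ha i0
        rw [Int.abs_eq_natAbs] at this
        exact_mod_cast this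
      calc l * g ≤ 2 * L * N := Nat.mul_le_mul h2 e1
        _ ≤ _ := hsize
    · rw [AddMonoidHom.prod_apply, Prod.mk_eq_zero]
      refine ⟨hφ1 a ?_, (hψ a).2 dvd_rfl⟩
      funext i
      rw [hcdef, Pi.zero_apply, sub_self]
    · intro x₁ h₁ x₂ h₂ x₃ h₃ x₄ h₄ h
      rw [AddMonoidHom.prod_apply, Prod.mk_eq_zero] at h
      have e1 := hφ2 _ (mem_comb h₁ h₂ h₃ h₄) h.1
      obtain ⟨j, hj⟩ := (hψ _).1 h.2
      refine ⟨j, ?_⟩
      funext i
      have e2 : c (x₁ - x₂ + x₃ - x₄) i = 0 := by rw [e1]; rfl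
      rw [hcdef, hj] at e2
      have e3 : a i0 * ((x₁ - x₂ + x₃ - x₄) i - j * a i) = 0 := by linarith
      rcases mul_eq_zero.1 e3 with h | h
      · exact absurd h hi0
      · rw [Pi.smul_apply, smul_eq_mul]
        linarith

end Pool.Agent.Q98.CD
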